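import Pool.Agent.X157.W.Sym
import Pool.Agent.TH167.SH.Fam
import Pool.Agent.TH167.SH.Conv

set_option autoImplicit false

/-!
# Symmetries of the fixed part of a linear system at very general points

Let `D = (d; w)` be a class with a nonzero section at `s` very general points of the complex
projective plane. A fixed component is an irreducible form which divides every form of the system;
nothing is assumed about `D C` or `C ^ 2`.

* The multiplicities of a fixed component are a function of those of `D`, except for at most one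
  point.
* Let `A = ∑ k C` be a sum of different fixed components `C` such that `C ^ k` divides every form
  of the system. Then `A` is rigid: the only form of its class is the product of the `C ^ k`; so
  `A ^ 2 ≤ A K`.
* If no component of `A` is a `(-1)`-curve, then the reflection in each real root `α` of the Weyl
  group with `A α = 0` permutes the components of `A` and preserves their multiplicities `k`; and
  for two such roots `α`, `β` and each component `C` of `A`: `C α = 0` or `C β = 0` if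
  `α β = 0`, and one of `C α`, `C β`, `C (α + β)` is zero if `α β = 1`.

Proof: if `G ^ n` divides all forms of the system, `A` divides them, `G ^ n` divides `A`, and `A`
may be replaced with `A'` in all products `A H` of the system, then `G ^ n` divides `A'`.
The reflections carry the components of `A` to irreducible curves ON THE SAME surface, because the
coordinates of the points are algebraically independent (automorphisms of the complex numbers), so
a reflection which fixes the class of `A` permutes its components.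
-/

namespace Pool.Agent.Results.MP_d3128a_ag.FixedPartSymmetry

open MvPolynomial Pool.Agent.TH167 Pool.Agent.TH167.SHDefs Pool.Agent.X157.W

theorem fx_of {s : ℕ} {P : Fin s → Fin 2 → ℂ} {d : ℕ} {w : Fin s → ℕ} {k e : ℕ}
    {u : Fin s → ℕ} (h : ∃ C, Curve P C e u ∧ ∀ F ∈ sys P d w, C ^ k ∣ F) :
    ∃ G, FxK P d w k e u G := by
  obtain ⟨C, hC, hF⟩ := h
  obtain ⟨h1, h2, h3⟩ := SH.curve_iff.1 hC
  refine ⟨C, h1, h2, h3, fun F hF' => hF F ?_⟩
  rw [SH.sys_eq]
  exact hF'

theorem result (s : ℕ) :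
    ∃ Z : ℕ → MvPolynomial (Fin s × Fin 2) ℂ, (∀ n, Z n ≠ 0) ∧
      ∀ P : Fin s → Fin 2 → ℂ,
        (∀ n, MvPolynomial.eval (fun ij : Fin s × Fin 2 => P ij.1 ij.2) (Z n) ≠ 0) →
        ∀ (d : ℕ) (w : Fin s → ℕ), sys P d w ≠ ⊥ →
          (∀ (e : ℕ) (u : Fin s → ℕ), (∃ C, Curve P C e u ∧ ∀ F ∈ sys P d w, C ∣ F) →
            ∃ I : Finset (Fin s), I.card ≤ 1 ∧
              ∀ i j, i ∉ I → j ∉ I → w i = w j → u i = u j) ∧
          ∀ (T : Finset (ℕ × (Fin s → ℕ))) (k : ℕ × (Fin s → ℕ) → ℕ),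
            (∀ t ∈ T, 0 < k t ∧ ∃ C, Curve P C t.1 t.2 ∧ ∀ F ∈ sys P d w, C ^ k t ∣ F) →
            ∀ (f : ℕ) (v : Fin s → ℕ), f = ∑ t ∈ T, k t * t.1 →
              (∀ j, v j = ∑ t ∈ T, k t * t.2 j) →
              (dimL P f v = 0 ∧ inter f v f v ≤ interK f v) ∧
              ((∀ t ∈ T, ∀ C, ¬ MinusOne P C t.1 t.2) →
                (∀ (a : ℤ) (b : Fin s → ℤ), Root a b → a * f - ∑ i, b i * v i = 0 →
                  ∀ t ∈ T, ∃ t' ∈ T, k t' = k t ∧
                    (t'.1 : ℤ) = t.1 + (a * t.1 - ∑ i, b i * t.2 i) * a ∧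
                    ∀ j, (t'.2 j : ℤ) = t.2 j + (a * t.1 - ∑ i, b i * t.2 i) * b j) ∧
                ∀ (a : ℤ) (b : Fin s → ℤ) (a' : ℤ) (b' : Fin s → ℤ),
                  Root a b → Root a' b' → a * f - ∑ i, b i * v i = 0 →
                  a' * f - ∑ i, b' i * v i = 0 → ∀ t ∈ T,
                  (a * a' - ∑ i, b i * b' i = 0 →
                    a * t.1 - ∑ i, b i * t.2 i = 0 ∨ a' * t.1 - ∑ i, b' i * t.2 i = 0) ∧
                  (a * a' - ∑ i, b i * b' i = 1 →
                    a * t.1 - ∑ i, b i * t.2 i = 0 ∨ a' * t.1 - ∑ i, b' i * t.2 i = 0 ∨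
                      (a * t.1 - ∑ i, b i * t.2 i) + (a' * t.1 - ∑ i, b' i * t.2 i) = 0)) := by
  classical
  obtain ⟨Z, hZ, h⟩ := SH.exists_fam (Fin s × Fin 2)
  refine ⟨Z, hZ, fun P hP0 d w hsys => ?_⟩
  have hP : Gen P := (h _).1 hP0
  obtain ⟨F0, hF, hF0⟩ := (Submodule.ne_bot_iff _).1 hsys
  rw [SH.sys_eq] at hF
  refine ⟨fun e u hC => ?_, fun T k hT f v hf hv => ⟨?_, ?_⟩⟩
  · obtain ⟨C, hC, hCF⟩ := hC
    obtain ⟨h1, h2, h3⟩ := SH.curve_iff.1 hC
    refine fx_const hP hF0 hF (e := e) (u := u) (G := C) ⟨h1, h2, h3, fun F hF' => hCF F ?_⟩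
    rw [SH.sys_eq]
    exact hF'
  · have hG' : ∀ t : ℕ × (Fin s → ℕ), ∃ G, t ∈ T → FxK P d w (k t) t.1 t.2 G := by
      intro t
      by_cases ht : t ∈ T
      · obtain ⟨G, hG⟩ := fx_of (hT t ht).2
        exact ⟨G, fun _ => hG⟩
      · exact ⟨0, fun h => absurd h ht⟩
    choose G hG using hG'
    have h1 := rigid_dim hF0 hF T G k (fun t => t.1) (fun t => t.2) (fun t ht => hG t ht)
      (fun t _ t' _ htt h => htt (Prod.ext h.1 h.2))
    have hv' : v = fun j => ∑ t ∈ T, k t * t.2 j := funext hv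
    rw [← hf, ← hv'] at h1
    have h2 : dimL P f v = 0 := by
      rw [SH.dimL_eq, h1]
      norm_num
    refine ⟨h2, ?_⟩
    have h3 := SH.chi_le_dim P f v
    rw [h1] at h3
    have h4 := SH.two_chi f v
    rw [SH.inter_eq, SH.interK_eq]
    push_cast at h3
    linarith
  · intro hne
    have hv' : v = fun j => ∑ t ∈ T, k t * t.2 j := funext hv
    have hT' : ∀ t ∈ T, (∃ G, FxK P d w (k t) t.1 t.2 G) ∧ NotExc t.1 t.2 := by
      intro t ht
      obtain ⟨G, hG⟩ := fx_of (hT t ht).2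
      refine ⟨⟨G, hG⟩, ?_⟩
      rintro ⟨h1, h2⟩
      apply hne t ht G
      refine ⟨SH.curve_iff.2 ⟨hG.1, hG.2.1, hG.2.2.1⟩, ?_, ?_⟩
      · rw [SH.inter_eq]
        exact h1
      · rw [SH.interK_eq, h2]
    have hk : ∀ t ∈ T, 0 < k t := fun t ht => (hT t ht).1
    have key : ∀ (a : ℤ) (b : Fin s → ℤ), Root a b → a * f - ∑ i, b i * v i = 0 →
        ∀ t ∈ T, ∃ t' ∈ T, k t ≤ k t' ∧ (t'.1 : ℤ) = t.1 + pr a b t.1 t.2 * a ∧
          ∀ l, (t'.2 l : ℤ) = t.2 l + pr a b t.1 t.2 * b l := by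
      intro a b hα h0 t ht
      refine refl_mem hP hF0 hF T k hk hT' hα ?_ t ht
      rw [← hf, ← hv']
      exact h0
    have hM : ∀ (e : ℕ) (u : Fin s → ℕ), (e, u) ∈ T → Ic P e u ∧ NotExc e u := by
      intro e u ht
      obtain ⟨⟨G, hG⟩, h1⟩ := hT' (e, u) ht
      exact ⟨⟨G, hG.1, hG.2.1, hG.2.2.1⟩, h1⟩
    have hdis : ∀ T1 U1 : Finset (ℕ × (Fin s → ℕ)), Disjoint T1 U1 → T1.Nonempty →
        (∀ t ∈ T1, (t.1, t.2) ∈ T) → (∀ t ∈ U1, (t.1, t.2) ∈ T) →
        ∑ t ∈ T1, (t.1 : ℤ) = ∑ t ∈ U1, (t.1 : ℤ) →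
        (∀ j, ∑ t ∈ T1, (t.2 j : ℤ) = ∑ t ∈ U1, (t.2 j : ℤ)) → False := by
      intro T1 U1 hTU hT0 h1 h2 h3 h4
      refine disj_fix hF0 hF T1 U1 hTU hT0 (fun t ht => ?_) (fun t ht => ?_)
        (by exact_mod_cast h3) (fun j => by exact_mod_cast h4 j)
      · obtain ⟨⟨G, g1, g2, g3, g4⟩, -⟩ := hT' t (h1 t ht)
        exact ⟨G, g1, g2, g3, fun F hF' => dvd_trans (dvd_pow_self _ (hk t (h1 t ht)).ne')
          (g4 F hF')⟩
      · obtain ⟨⟨G, g1, g2, g3, g4⟩, -⟩ := hT' t (h2 t ht)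
        exact ⟨G, g1, g2, g3, fun F hF' => dvd_trans (dvd_pow_self _ (hk t (h2 t ht)).ne')
          (g4 F hF')⟩
    have hcl : ∀ (a : ℤ) (b : Fin s → ℤ), Root a b → a * f - ∑ i, b i * v i = 0 →
        ∀ (e : ℕ) (u : Fin s → ℕ), (e, u) ∈ T → ∀ (e' : ℕ) (u' : Fin s → ℕ),
          (e' : ℤ) = e + pr a b e u * a → (∀ l, (u' l : ℤ) = u l + pr a b e u * b l) →
          (e', u') ∈ T := by
      intro a b hα h0 e u ht e' u' h1 h2
      obtain ⟨t', ht', -, h3, h4⟩ := key a b hα h0 (e, u) ht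
      have h5 : (e', u') = t' := by
        refine Prod.ext ?_ (funext fun l => ?_)
        · have h6 : (e' : ℤ) = t'.1 := by rw [h1, h3]
          exact_mod_cast h6
        · have h6 : (u' l : ℤ) = t'.2 l := by rw [h2, h4]
          exact_mod_cast h6
      rw [h5]
      exact ht'
    refine ⟨?_, ?_⟩
    · intro a b hα h0 t ht
      obtain ⟨t', ht', h1, h2, h3⟩ := key a b hα h0 t ht
      obtain ⟨t'', ht'', g1, g2, g3⟩ := key a b hα h0 t' ht'
      have h4 : pr a b t'.1 t'.2 = -pr a b t.1 t.2 := by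
        rw [pr_add h2 h3, hα.self]
        ring
      have h5 : t'' = t := by
        refine Prod.ext ?_ (funext fun l => ?_)
        · have h6 : (t''.1 : ℤ) = t.1 := by
            rw [g2, h4, h2]
            ring
          exact_mod_cast h6
        · have h6 : (t''.2 l : ℤ) = t.2 l := by
            rw [g3, h4, h3]
            ring
          exact_mod_cast h6
      rw [h5] at g1
      exact ⟨t', ht', le_antisymm g1 h1, h2, h3⟩
    · intro a b a' b' hα hβ h0 h0' t ht
      exact ⟨fun hab => orthM hP hM hdis hα hβ (hcl a b hα h0) (hcl a' b' hβ h0')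
          (e := t.1) (u := t.2) ht hab,
        fun hab => orth2M hP hM hdis hα hβ (hcl a b hα h0) (hcl a' b' hβ h0')
          (e := t.1) (u := t.2) ht hab⟩

end Pool.Agent.Results.MP_d3128a_ag.FixedPartSymmetry
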