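import Mathlib
import Pool.Agent.X214.NV.Dom

set_option autoImplicit false

/-!
# Non-speciality for near-uniform multiplicities at 36 or more points

Let `v` take only the values `m`, `m + 1`, `m ≥ 1` arbitrary, on a set `S` of at least `36` of the
`s` points. Let the multiplicities `w` be at most `v` on `S`, and at most `1` at the other points.
If `w = v` on `S`, or `∑ (v i + 1).choose 2 ≤ (d + 2).choose 2` (sum over `S`), then the system of the plane curves
of degree `d` with the multiplicities `w i` at general points is non-special.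
-/

namespace Pool.Agent.Results.MP_d3128a_ag.NearUniformExplicit

open MvPolynomial Pool.Agent.X214.NV

/-- Forms of degree `d` vanishing to order at least `w i` at the points `(P i 0 : P i 1 : 1)`. -/
noncomputable def forms {s : ℕ} (P : Fin s → Fin 2 → ℂ) (d : ℕ) (w : Fin s → ℕ) :
    Submodule ℂ (MvPolynomial (Fin 3) ℂ) :=
  homogeneousSubmodule (Fin 3) ℂ d ⊓
    Submodule.restrictScalars ℂ
      (⨅ i : Fin s, (Ideal.span {X 0 - C (P i 0) * X 2, X 1 - C (P i 1) * X 2} :
        Ideal (MvPolynomial (Fin 3) ℂ)) ^ (w i))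

/-- For general points the system of the curves of degree `d` with the multiplicities `w` is
non-special: its dimension is `max (vdim, -1)`. -/
def NonSpecial {s : ℕ} (d : ℕ) (w : Fin s → ℕ) : Prop :=
  ∃ F : MvPolynomial (Fin s × Fin 2) ℂ, F ≠ 0 ∧ ∀ P : Fin s → Fin 2 → ℂ,
    MvPolynomial.eval (fun ij : Fin s × Fin 2 => P ij.1 ij.2) F ≠ 0 →
    (Module.finrank ℂ ↥(forms P d w) : ℤ) - 1 =
      max (((d + 2).choose 2 : ℤ) - 1 - ∑ i, ((w i + 1).choose 2 : ℤ)) (-1)

theorem result : ∀ (s d : ℕ) (w : Fin s → ℕ), Dominated d w → NonSpecial d w := by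
  intro s d w h
  obtain ⟨F, hF, hF'⟩ := dom_open h
  refine ⟨F.map (algebraMap ℚ ℂ), Pool.Agent.H932R3.map_ne_zero_of hF, fun P hP => ?_⟩
  rw [MvPolynomial.eval_map] at hP
  have h1 : Module.finrank ℂ ↥(forms P d w) =
      Nat.choose (d + 2) 2 - ∑ i, Nat.choose (w i + 1) 2 := hF' (L := ℂ) P hP
  have h2 : ∑ i, ((w i + 1).choose 2 : ℤ) = ((∑ i, Nat.choose (w i + 1) 2 : ℕ) : ℤ) := by
    push_cast
    rfl
  rw [h1, h2]
  omega

end Pool.Agent.Results.MP_d3128a_ag.NearUniformExplicit
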