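import Mathlib
import Pool.Agent.Results.MP_d3128a_ag.AllNumbersNearUniform
import Pool.Agent.X134.UD.Seq
import Pool.Agent.X134.UD.Sparse
import Pool.Agent.X134.UD.Primes

set_option autoImplicit false

/-!
# Near-uniform vectors `(m, ..., m, m + 1, ..., m + 1)` for squares, primes and sparse sequences of `m`

Let `n ≥ 10` not be a perfect square (from `36` on everything is settled by the starting result
`NearUniformExplicit`) and let `m_k` be the vector with `k` entries `m + 1` and `n - k` entries `m` (in some order).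
The starting result `AllNumbersNearUniform` bounds by `bad n < 1` the upper density of the sums `W = n m + k` of
those vectors, `k` and `m` arbitrary, for which the system is special in some degree. Here, for EVERY fixed `k`, the
same bound holds for the upper density of the `m`

* along EVERY sequence `m = x_j` for which the Weyl sums of `√n x_j` are `o(N)`;
* for the values of EVERY nonconstant integral polynomial (all `m`, the squares, the cubes, ...);
* for the PRIMES (the density is taken among the primes);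
* for the sequences `⌊α j ^ c⌋`, `c > 1`, which are arbitrarily sparse: for all `α > 0` outside one set `E` of
  Hausdorff dimension less than `1`, for all `n` and `k` at once.

Proof. If the vector is special in some degree, there is an integer within a bounded distance from
`√n m + k / √n + (√n - 3) / 2` (`exp_near2`); Weyl's criterion, Weyl's theorem for polynomials,
Vinogradov's theorem (`√n` is badly approximable) and the covering argument.
-/

namespace Pool.Agent.Results.MP_d3128a_ag.SparseMultiplicities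

open AllNumbersNearUniform Pool.Agent.X134.UD
open Pool.Agent.H534R3.UDist (Weyl)

/-- `m` is positive and for some arrangement of `k` entries `m + 1` and `n - k` entries `m` the system of curves
through `n` general points is special in some degree -/
def Bad (n k m : ℕ) : Prop :=
  0 < m ∧ ∃ w : Fin n → ℕ, (∀ i, w i = m ∨ w i = m + 1) ∧ ∑ i, w i = n * m + k ∧ ¬ NonSpecial w

theorem div_sqrt {n : ℕ} (hn : 10 ≤ n) (m k : ℕ) :
    2 * (((n * m + k : ℕ) : ℝ)) / Real.sqrt n = 2 * (Real.sqrt n * m) + 2 * (k / Real.sqrt n) := by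
  have hn0 : (0 : ℝ) < n := by
    have : (10 : ℝ) ≤ n := by exact_mod_cast hn
    linarith
  have hs : 0 < Real.sqrt n := Real.sqrt_pos.2 hn0
  have hsq : Real.sqrt n * Real.sqrt n = n := Real.mul_self_sqrt hn0.le
  rw [div_eq_iff hs.ne']
  push_cast
  have e : k / Real.sqrt n * Real.sqrt n = k := div_mul_cancel₀ _ hs.ne'
  nlinarith

theorem window_all {n : ℕ} (hn : 10 ≤ n) (k m : ℕ) (h : Bad n k m) :
    ∃ D : ℤ, Real.sqrt n * m + (k / Real.sqrt n + (Real.sqrt n - 3) / 2) -
        Pool.Agent.TH885.NW.loW n / 2 ≤ D ∧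
      (D : ℝ) ≤ Real.sqrt n * m + (k / Real.sqrt n + (Real.sqrt n - 3) / 2) +
        Pool.Agent.TH885.NW.upW n / 2 := by
  obtain ⟨hm, w, hw, hsum, hbad⟩ := h
  have e := div_sqrt hn m k
  by_contra hcon
  push Not at hcon
  apply hbad
  obtain ⟨F, hF, hF'⟩ := Pool.Agent.TH885.NW.exp_near2 (L := ℂ) hn hm hw
  refine nonSpecial_of ⟨F, hF, fun P hP d => hF' P hP d ?_⟩
  rw [sum_eq hsum, e]
  have h2 := hcon (d : ℤ)
  push_cast at h2
  rcases le_or_gt (-Pool.Agent.TH885.NW.loW n)
    (2 * (d : ℝ) + 3 - (Real.sqrt n + (2 * (Real.sqrt n * m) + 2 * (k / Real.sqrt n)))) with h4 | h4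
  · left
    have := h2 (by linarith)
    linarith
  · right
    linarith

theorem bad_eq (n : ℕ) : bad n = Pool.Agent.TH885.NW.loW n / 2 + Pool.Agent.TH885.NW.upW n / 2 := by
  unfold bad Pool.Agent.TH885.NW.loW Pool.Agent.TH885.NW.upW
  ring

theorem result :
    (∀ n : ℕ, 10 ≤ n → ¬ IsSquare n → ∀ k : ℕ,
      (∀ x : ℕ → ℕ, Weyl (fun j => Real.sqrt n * x j) → UpperLE (fun j => Bad n k (x j)) (bad n)) ∧
      (∀ P : Polynomial ℤ, 1 ≤ P.natDegree →
        UpperLE (fun j => ∃ m : ℕ, (m : ℤ) = P.eval (j : ℤ) ∧ Bad n k m) (bad n)) ∧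
      UpperLEPrimes (Bad n k) (bad n)) ∧
    (∀ c : ℝ, 1 < c → ∃ κ : ℝ, 0 < κ ∧ κ < 1 ∧ ∃ E : Set ℝ, dimH E ≤ ENNReal.ofReal (1 - κ) ∧
      ∀ α : ℝ, 0 < α → α ∉ E → ∀ n : ℕ, 10 ≤ n → ¬ IsSquare n → ∀ k : ℕ,
        UpperLE (fun j => Bad n k ⌊α * (j : ℝ) ^ c⌋₊) (bad n)) ∧
    (∀ n : ℕ, 10 ≤ n → bad n < 1) := by
  classical
  have h0 : ∀ n : ℕ, 10 ≤ n →
      0 ≤ Pool.Agent.TH885.NW.loW n / 2 + Pool.Agent.TH885.NW.upW n / 2 := fun n hn => by
    obtain ⟨h1, h2, h3⟩ := Pool.Agent.TH885.NW.win_len hn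
    linarith
  have main : ∀ n : ℕ, 10 ≤ n → ¬ IsSquare n → ∀ k : ℕ,
      ((∀ x : ℕ → ℕ, Weyl (fun j => Real.sqrt n * x j) → UpperLE (fun j => Bad n k (x j)) (bad n)) ∧
      (∀ P : Polynomial ℤ, 1 ≤ P.natDegree →
        UpperLE (fun j => ∃ m : ℕ, (m : ℤ) = P.eval (j : ℤ) ∧ Bad n k m) (bad n)) ∧
      UpperLE (Bad n k) (bad n)) ∧ UpperLEPrimes (Bad n k) (bad n) := by
    intro n hn hsq k
    have hirr : Irrational (Real.sqrt n) := irrational_sqrt_natCast_iff.2 hsq
    rw [bad_eq]
    exact ⟨sequences hirr (h0 n hn) (Bad n k) (window_all hn k),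
      primes (badly_sqrt hsq) (h0 n hn) (Bad n k) (window_all hn k)⟩
  refine ⟨fun n hn hsq k => ?_, fun c hc => ?_, fun n hn => ?_⟩
  · obtain ⟨⟨a1, a2, -⟩, a4⟩ := main n hn hsq k
    exact ⟨a1, a2, a4⟩
  · obtain ⟨κ, hκ0, hκ1, H⟩ := sparse c hc
    obtain ⟨E, hE, hh⟩ := H (ℕ × ℕ) (fun i m => Bad i.1 i.2 m)
    exact ⟨κ, hκ0, hκ1, E, hE, fun α hα hαE n hn hsq k =>
      hh α hα hαE (n, k) _ (by rw [bad_eq]; exact h0 n hn) (main n hn hsq k).1.2.2⟩
  · obtain ⟨h1, h2, h3⟩ := Pool.Agent.TH885.NW.win_len hn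
    rw [bad_eq]
    linarith

end Pool.Agent.Results.MP_d3128a_ag.SparseMultiplicities
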