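import Pool.Agent.X157.W.Std
import Pool.Agent.X157.W.Pair
import Pool.Agent.TH167.SH.Fam
import Pool.Agent.TH167.SH.Conv

set_option autoImplicit false

/-!
# Counterexamples in standard form: fixed components in standard form

Let `D = (d; w)` be a class with `d ≥ w i + w j + w l` for all different `i, j, l` (as in Q1) such
that the linear system at very general points is not empty. If `D ^ 2 < 0` (then `D` is special), or
if `D` is not nef, there is an irreducible curve `C` with `D C < 0`. For every such curve `C` there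
is an irreducible curve `C₀` with the same self-intersection and the same genus, again IN STANDARD
FORM, with `D C₀ ≤ D C < 0`, so that `C₀` is a component of all members of the system. Its own class
is special, and it has the following properties, where `k = - C₀ ^ 2 > 0`: at least ten of its
multiplicities are at least four; for every real root `α` of the Weyl group the number `C₀ α` is zero
or at least `√k` in absolute value; it meets every `(-1)`-curve in `0`, in `1` (only if `k = 1`), or
in at least `max (4, k)` points.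

So Q1 for classes that are not nef (for instance, of negative self-intersection) is reduced to
irreducible curves in standard form with these properties. The reflections which carry `C` to
standard form decrease the intersection number with `D`, and the Weyl group permutes the classes
of the irreducible curves other than `(-1)`-curves on one and the same surface.
-/

namespace Pool.Agent.Results.MP_d3128a_ag.StandardFixedComponent

open MvPolynomial Pool.Agent.TH167 Pool.Agent.TH167.SHDefs Pool.Agent.X157.W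

/-- The sum of any three different multiplicities is at most the degree. -/
def Standard {s : ℕ} (d : ℕ) (w : Fin s → ℕ) : Prop :=
  ∀ i j l : Fin s, i ≠ j → i ≠ l → j ≠ l → w i + w j + w l ≤ d

theorem result (r : ℕ) :
    ∃ Z : ℕ → MvPolynomial (Fin (r + 4) × Fin 2) ℂ, (∀ n, Z n ≠ 0) ∧
      ∀ P : Fin (r + 4) → Fin 2 → ℂ,
        (∀ n, MvPolynomial.eval (fun ij : Fin (r + 4) × Fin 2 => P ij.1 ij.2) (Z n) ≠ 0) →
        ∀ (d : ℕ) (w : Fin (r + 4) → ℕ), Standard d w → sys P d w ≠ ⊥ →
          (inter d w d w < 0 → Special P d w ∧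
            ∃ (C : MvPolynomial (Fin 3) ℂ) (e : ℕ) (u : Fin (r + 4) → ℕ),
              Curve P C e u ∧ inter d w e u < 0) ∧
          ∀ (C : MvPolynomial (Fin 3) ℂ) (e : ℕ) (u : Fin (r + 4) → ℕ),
            Curve P C e u → inter d w e u < 0 →
            ∃ (C₀ : MvPolynomial (Fin 3) ℂ) (e₀ : ℕ) (u₀ : Fin (r + 4) → ℕ),
              Curve P C₀ e₀ u₀ ∧ Standard e₀ u₀ ∧ Special P e₀ u₀ ∧
              inter e₀ u₀ e₀ u₀ = inter e u e u ∧ interK e₀ u₀ = interK e u ∧
              inter d w e₀ u₀ ≤ inter d w e u ∧ (∀ F ∈ sys P d w, C₀ ∣ F) ∧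
              inter e₀ u₀ e₀ u₀ < 0 ∧
              10 ≤ (Finset.univ.filter fun i => 4 ≤ u₀ i).card ∧
              (∀ (a : ℤ) (b : Fin (r + 4) → ℤ), Root a b →
                a * e₀ - ∑ i, b i * u₀ i = 0 ∨
                  -inter e₀ u₀ e₀ u₀ ≤ (a * e₀ - ∑ i, b i * u₀ i) ^ 2) ∧
              (∀ (e' : ℕ) (u' : Fin (r + 4) → ℕ) (E : MvPolynomial (Fin 3) ℂ),
                MinusOne P E e' u' → inter e₀ u₀ e' u' = 0 ∨
                  (inter e₀ u₀ e' u' = 1 ∧ inter e₀ u₀ e₀ u₀ = -1) ∨
                  (4 ≤ inter e₀ u₀ e' u' ∧ -inter e₀ u₀ e₀ u₀ ≤ inter e₀ u₀ e' u')) := by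
  classical
  obtain ⟨Z, hZ, h⟩ := SH.exists_fam (Fin (r + 4) × Fin 2)
  refine ⟨Z, hZ, fun P hP0 d w hst hsys => ?_⟩
  have hP : Gen P := (h _).1 hP0
  have hinj := SH.inj_of_alg hP
  have hred : SH.Reduced d w := hst
  -- special if the virtual dimension is negative
  have hspec : ∀ (e : ℕ) (u : Fin (r + 4) → ℕ), SH.Reduced e u → sys P e u ≠ ⊥ →
      SH.ip e u e u < 0 → Special P e u := by
    intro e u hr hs hneg
    obtain ⟨F, hF, hF0⟩ := (Submodule.ne_bot_iff _).1 hs
    rw [SH.sys_eq] at hF
    have hFm := (SH.mem_VS _ _ _ _).1 hF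
    have hpos := TT.pos_of_mem hF hF0
    have hue : ∀ j, u j ≤ e := fun j => SH.van_le hF0 hFm.1 (hFm.2 j)
    have hkk : SH.kk e u < 0 := by
      by_contra hcon
      push Not at hcon
      have h1 := SH.red_ip hr hue (by
        unfold SH.kk at hcon
        have : ((∑ j, u j : ℕ) : ℤ) ≤ ((3 * e : ℕ) : ℤ) := by
          push_cast
          linarith
        exact_mod_cast this)
      omega
    intro h1
    rw [SH.dimL_eq, SH.virtdim_eq] at h1
    have h2 := SH.two_chi e u
    rw [max_eq_right (by omega)] at h1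
    omega
  refine ⟨fun hneg => ?_, fun C e u hC hneg => ?_⟩
  · rw [SH.inter_eq] at hneg
    refine ⟨hspec d w hred hsys hneg, ?_⟩
    obtain ⟨F, hF, hF0⟩ := (Submodule.ne_bot_iff _).1 hsys
    rw [SH.sys_eq] at hF
    have hFm := (SH.mem_VS _ _ _ _).1 hF
    choose n hn using fun j => TT.exists_ord (p := P j) hF0 hFm.1
    have hwn : ∀ j, w j ≤ n j := by
      intro j
      by_contra hcon
      push Not at hcon
      exact (hn j).2 (SH.van_mono (by omega) (hFm.2 j))
    obtain ⟨e, u, G, a1, a2, a3, a4⟩ := exists_neg d F n hF0 hFm.1 hn (D := d) (v := w) (by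
      unfold SH.ip at hneg ⊢
      have h1 : ∑ j, (w j : ℤ) * w j ≤ ∑ j, (w j : ℤ) * n j :=
        Finset.sum_le_sum fun j _ => mul_le_mul_of_nonneg_left (by exact_mod_cast hwn j)
          (Int.natCast_nonneg _)
      linarith)
    exact ⟨G, e, u, SH.curve_iff.2 ⟨a1, a2, a3⟩, by rw [SH.inter_eq]; exact a4⟩
  · rw [SH.inter_eq] at hneg
    have hIc : Ic P e u := ⟨C, SH.curve_iff.1 hC⟩
    have hne : NotExc e u := by
      rintro ⟨h1, h2⟩
      have h3 := std_exc hP hred e u hIc h1 h2
      omega
    obtain ⟨e₀, u₀, b1, b2, b3, b4, b5, b6, -⟩ := to_std hP hred e u hIc hne hneg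
    have hb1 := b1
    obtain ⟨C₀, c1, c2, c3⟩ := b1
    obtain ⟨F, hF, hF0⟩ := (Submodule.ne_bot_iff _).1 hsys
    rw [SH.sys_eq] at hF
    have hself := (neg_comp hinj c1 c2 c3 d w F hF0 hF (by omega)).2
    refine ⟨C₀, e₀, u₀, SH.curve_iff.2 ⟨c1, c2, c3⟩, b3, ?_, ?_, ?_, ?_, ?_, ?_, ?_, ?_, ?_⟩
    · refine hspec _ _ b3 ((Submodule.ne_bot_iff _).2 ⟨C₀, ?_, c1.ne_zero⟩) hself
      rw [SH.sys_eq]
      exact (SH.mem_VS _ _ _ _).2 ⟨c2, fun j => (c3 j).1⟩
    · rw [SH.inter_eq, SH.inter_eq, b4]
    · rw [SH.interK_eq, SH.interK_eq, b5]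
    · rw [SH.inter_eq, SH.inter_eq]
      exact b6
    · intro F' hF'
      by_cases h0 : F' = 0
      · rw [h0]
        exact dvd_zero _
      · rw [SH.sys_eq] at hF'
        exact (neg_comp hinj c1 c2 c3 d w F' h0 hF' (by omega)).1
    · rw [SH.inter_eq]
      exact hself
    · by_contra hcon
      have h1 := T3.neg9 (w := u₀) (by
        have h2 : (Finset.univ.filter fun i => 4 ≤ u₀ i) =
          Finset.univ.filter fun j => 3 < u₀ j := by
          ext j
          simp only [Finset.mem_filter]
          constructor <;> rintro ⟨h3, h4⟩ <;> exact ⟨h3, by omega⟩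
        rw [h2] at hcon
        omega) hP c1 c2 c3 hself
      exact b2 h1
    · intro a b hab
      rw [SH.inter_eq]
      rcases root_gap hP hab e₀ u₀ hb1 b2 with h1 | h1
      · exact Or.inl h1
      · right
        have h2 : pr a b e₀ u₀ = a * e₀ - ∑ i, b i * u₀ i := rfl
        rw [h2] at h1
        linarith
    · intro e' u' E hE
      obtain ⟨g1, g2, g3⟩ := hE
      have hE' : Ic P e' u' := ⟨E, SH.curve_iff.1 g1⟩
      rw [SH.inter_eq] at g2
      rw [SH.interK_eq] at g3
      rw [SH.inter_eq, SH.inter_eq]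
      have h1 := pair_xu hP hE' g2 (by omega) hb1 b2
      have h2 := pair_neg hP hE' g2 (by omega) hb1 b2 hself
      rcases h2 with h2 | h2 | h2
      · exact Or.inl h2
      · exact Or.inr (Or.inl h2)
      · right
        right
        refine ⟨h2, ?_⟩
        rcases h1 with h1 | h1
        · omega
        · omega

end Pool.Agent.Results.MP_d3128a_ag.StandardFixedComponent
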